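import Pool.Agent.X51.KE.Stm2

/-!
# Part FOURG of the project KE (general form): discrete Fourier transform and a polynomial with too many zeros
-/

set_option autoImplicit false

namespace Pool.Agent.X60.KEG

open Pool.Agent.X51.KE Finset Polynomial
open scoped ComplexConjugate ZMod

/-- the Fourier coefficients -/
noncomputable def aa {n kd : ℕ} [NeZero n] (lam : ZMod n → Fin kd → ℝ) (m : ZMod n)
    (j : Fin kd) : ℂ := ∑ v, (lam v j : ℂ) * ZMod.stdAddChar (-(m * v))

/-- the relation at the frequency `h` -/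
noncomputable def hh {n kd : ℕ} [NeZero n] (a : Fin kd → ℂ) (m h : ZMod n) : ℂ :=
  ∑ j : Fin kd, a j * ((1 - ZMod.stdAddChar (h * ((j.val + 1 : ℕ) : ZMod n))) +
    ZMod.stdAddChar (-(m * ((j.val + 1 : ℕ) : ZMod n))) *
      (1 - ZMod.stdAddChar (-(h * ((j.val + 1 : ℕ) : ZMod n)))))

variable {n kd : ℕ} [NeZero n]

theorem shift (lam : ZMod n → Fin kd → ℝ) (m c : ZMod n) (j : Fin kd) :
    ∑ v, (lam (v - c) j : ℂ) * ZMod.stdAddChar (-(m * v)) =
      aa lam m j * ZMod.stdAddChar (-(m * c)) := by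
  unfold aa
  rw [Finset.sum_mul]
  refine Fintype.sum_equiv (Equiv.subRight c) _ _ fun v => ?_
  rw [Equiv.subRight_apply, mul_assoc, ← AddChar.map_add_eq_mul]
  congr 2
  ring

theorem hh_fr (lam : ZMod n → Fin kd → ℝ)
    {L : ℕ} (F : Fin L → ZMod n) (h : ∀ (l : Fin L) (v : ZMod n), ∑ j : Fin kd,
    ((lam v j : ℂ) * (1 - ZMod.stdAddChar (F l * ((j.val + 1 : ℕ) : ZMod n)))
      + (lam (v - ((j.val + 1 : ℕ) : ZMod n)) j : ℂ) *
        (1 - ZMod.stdAddChar (-(F l * ((j.val + 1 : ℕ) : ZMod n))))) = 0)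
    (l : Fin L) (m : ZMod n) : hh (aa lam m) m (F l) = 0 := by
  have h1 : ∑ v : ZMod n, (∑ j : Fin kd,
      ((lam v j : ℂ) * (1 - ZMod.stdAddChar (F l * ((j.val + 1 : ℕ) : ZMod n)))
      + (lam (v - ((j.val + 1 : ℕ) : ZMod n)) j : ℂ) *
        (1 - ZMod.stdAddChar (-(F l * ((j.val + 1 : ℕ) : ZMod n)))))) *
        ZMod.stdAddChar (-(m * v)) = 0 := by
    apply Finset.sum_eq_zero
    intro v _
    rw [h l v, zero_mul]
  rw [← h1]
  simp_rw [Finset.sum_mul]
  rw [Finset.sum_comm]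
  unfold hh
  refine Finset.sum_congr rfl fun j _ => ?_
  have h2 := shift lam m ((j.val + 1 : ℕ) : ZMod n) j
  simp_rw [add_mul]
  rw [Finset.sum_add_distrib]
  have h3 : ∑ v : ZMod n, (lam v j : ℂ) *
      (1 - ZMod.stdAddChar (F l * ((j.val + 1 : ℕ) : ZMod n))) *
        ZMod.stdAddChar (-(m * v)) =
      aa lam m j * (1 - ZMod.stdAddChar (F l * ((j.val + 1 : ℕ) : ZMod n))) := by
    unfold aa
    rw [Finset.sum_mul]
    refine Finset.sum_congr rfl fun v _ => ?_
    ring
  have h4 : ∑ v : ZMod n, (lam (v - ((j.val + 1 : ℕ) : ZMod n)) j : ℂ) *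
      (1 - ZMod.stdAddChar (-(F l * ((j.val + 1 : ℕ) : ZMod n)))) *
        ZMod.stdAddChar (-(m * v)) =
      aa lam m j * ZMod.stdAddChar (-(m * ((j.val + 1 : ℕ) : ZMod n))) *
        (1 - ZMod.stdAddChar (-(F l * ((j.val + 1 : ℕ) : ZMod n)))) := by
    rw [← h2, Finset.sum_mul]
    refine Finset.sum_congr rfl fun v _ => ?_
    ring
  rw [h3, h4]
  ring

theorem conj_aa (lam : ZMod n → Fin kd → ℝ) (m : ZMod n) (j : Fin kd) :
    conj (aa lam (-m) j) = aa lam m j := by
  unfold aa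
  rw [map_sum]
  refine Finset.sum_congr rfl fun v _ => ?_
  rw [map_mul, Complex.conj_ofReal, ← AddChar.map_neg_eq_conj]
  congr 2
  ring

theorem conj_hh (lam : ZMod n → Fin kd → ℝ) (m f : ZMod n) :
    conj (hh (aa lam (-m)) (-m) f) = hh (aa lam m) m (-f) := by
  unfold hh
  rw [map_sum]
  refine Finset.sum_congr rfl fun j _ => ?_
  rw [RingHom.map_mul, conj_aa, RingHom.map_add, RingHom.map_sub, RingHom.map_mul,
    RingHom.map_sub, RingHom.map_one,
    ← AddChar.map_neg_eq_conj, ← AddChar.map_neg_eq_conj, ← AddChar.map_neg_eq_conj]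
  simp only [neg_mul, neg_neg]

theorem hh_symm (a : Fin kd → ℂ) (m f : ZMod n) : hh a m (-m - f) = hh a m f := by
  unfold hh
  refine Finset.sum_congr rfl fun j _ => ?_
  congr 1
  set c : ZMod n := ((j.val + 1 : ℕ) : ZMod n)
  have e1 : ZMod.stdAddChar ((-m - f) * c) = ZMod.stdAddChar (-(m * c)) *
      ZMod.stdAddChar (-(f * c)) := by
    rw [← AddChar.map_add_eq_mul]
    congr 1
    ring
  have e2 : ZMod.stdAddChar (-(m * c)) * ZMod.stdAddChar (-((-m - f) * c)) =
      ZMod.stdAddChar (f * c) := by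
    rw [← AddChar.map_add_eq_mul]
    congr 1
    ring
  rw [e1, mul_sub, mul_one, e2]
  ring

theorem hh_zero (a : Fin kd → ℂ) (m : ZMod n) : hh a m 0 = 0 := by
  unfold hh
  apply Finset.sum_eq_zero
  intro j _
  rw [zero_mul, neg_zero, AddChar.map_zero_eq_one]
  ring

/-- the polynomial -/
noncomputable def pp (a : Fin kd → ℂ) (m : ZMod n) : ℂ[X] :=
  ∑ j : Fin kd, C (a j) *
    (C (1 + ZMod.stdAddChar (-(m * ((j.val + 1 : ℕ) : ZMod n)))) * X ^ kd -
      X ^ (kd + (j.val + 1)) -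
      C (ZMod.stdAddChar (-(m * ((j.val + 1 : ℕ) : ZMod n)))) * X ^ (kd - (j.val + 1)))

theorem pp_eval (a : Fin kd → ℂ) (m h : ZMod n) :
    (pp a m).eval (ZMod.stdAddChar h) = ZMod.stdAddChar h ^ kd * hh a m h := by
  unfold pp hh
  rw [eval_finsetSum, Finset.mul_sum]
  refine Finset.sum_congr rfl fun j _ => ?_
  simp only [eval_mul, eval_C, eval_sub, eval_pow, eval_X]
  have hz : (ZMod.stdAddChar h : ℂ) ≠ 0 := by
    intro h0
    have := AddChar.map_add_eq_mul (ZMod.stdAddChar (N := n)) h (-h)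
    rw [add_neg_cancel, AddChar.map_zero_eq_one, h0, zero_mul] at this
    exact one_ne_zero this
  have e1 : ZMod.stdAddChar (h * ((j.val + 1 : ℕ) : ZMod n)) =
      (ZMod.stdAddChar h : ℂ) ^ (j.val + 1) := by
    rw [← AddChar.map_nsmul_eq_pow, nsmul_eq_mul, mul_comm]
  have e2 : (ZMod.stdAddChar h : ℂ) ^ (j.val + 1) *
      ZMod.stdAddChar (-(h * ((j.val + 1 : ℕ) : ZMod n))) = 1 := by
    rw [← e1, ← AddChar.map_add_eq_mul, add_neg_cancel, AddChar.map_zero_eq_one]
  have e3 : (ZMod.stdAddChar h : ℂ) ^ kd =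
      (ZMod.stdAddChar h : ℂ) ^ (kd - (j.val + 1)) * (ZMod.stdAddChar h : ℂ) ^ (j.val + 1) := by
    rw [← pow_add]
    congr 1
    have := j.2
    omega
  have e4 : (ZMod.stdAddChar h : ℂ) ^ kd *
      ZMod.stdAddChar (-(h * ((j.val + 1 : ℕ) : ZMod n))) =
      (ZMod.stdAddChar h : ℂ) ^ (kd - (j.val + 1)) := by
    rw [e3, mul_assoc, e2, mul_one]
  rw [e1, pow_add]
  linear_combination (a j * ZMod.stdAddChar (-(m * ((j.val + 1 : ℕ) : ZMod n)))) * e4

theorem pp_natDegree (a : Fin kd → ℂ) (m : ZMod n) : (pp a m).natDegree ≤ 2 * kd := by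
  unfold pp
  refine natDegree_sum_le_of_forall_le _ _ fun j _ => ?_
  have hj := j.2
  refine (natDegree_C_mul_le _ _).trans ?_
  refine (natDegree_sub_le _ _).trans (max_le ((natDegree_sub_le _ _).trans (max_le ?_ ?_)) ?_)
  · exact (natDegree_C_mul_X_pow_le _ _).trans (by omega)
  · rw [natDegree_X_pow]
    omega
  · exact (natDegree_C_mul_X_pow_le _ _).trans (by omega)

theorem pp_coeff (a : Fin kd → ℂ) (m : ZMod n) (j : Fin kd) :
    (pp a m).coeff (kd + (j.val + 1)) = - a j := by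
  unfold pp
  rw [finsetSum_coeff, Finset.sum_eq_single j]
  · rw [coeff_C_mul, coeff_sub, coeff_sub, coeff_C_mul_X_pow, coeff_C_mul_X_pow, coeff_X_pow,
      if_neg (by omega), if_pos rfl, if_neg (by omega)]
    ring
  · intro i _ hij
    have hne : i.val ≠ j.val := fun h => hij (Fin.ext h)
    rw [coeff_C_mul, coeff_sub, coeff_sub, coeff_C_mul_X_pow, coeff_C_mul_X_pow, coeff_X_pow,
      if_neg (by omega), if_neg (by omega), if_neg (by omega)]
    ring
  · intro h
    exact absurd (Finset.mem_univ _) h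

/-- **Part FOURG.** -/
theorem t_FOURG : S_FOURG := by
  intro n L kd _ F hT lam hsum h
  have hS : ∀ m f : ZMod n, InSG F f → hh (aa lam m) m f = 0 := by
    intro m f hf
    rcases hf with rfl | ⟨l, rfl | rfl⟩
    · exact hh_zero _ _
    · exact hh_fr lam F h l m
    · rw [← conj_hh, hh_fr lam F h l (-m), map_zero]
  have hcoef : ∀ (m : ZMod n) (j : Fin kd), aa lam m j = 0 := by
    intro m j
    by_cases hm : m = 0
    · unfold aa
      have : ∀ v, (lam v j : ℂ) * ZMod.stdAddChar (-(m * v)) = ((lam v j : ℝ) : ℂ) := by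
        intro v
        rw [hm, zero_mul, neg_zero, AddChar.map_zero_eq_one, mul_one]
      simp_rw [this]
      rw [← Complex.ofReal_sum, hsum j, Complex.ofReal_zero]
    · obtain ⟨T, hTc, hTS⟩ := hT m hm
      have hp : pp (aa lam m) m = 0 := by
        refine Polynomial.eq_zero_of_natDegree_lt_card_of_eval_eq_zero' _
          (T.image fun x => (ZMod.stdAddChar x : ℂ)) ?_ ?_
        · intro z hz
          obtain ⟨x, hx, rfl⟩ := Finset.mem_image.1 hz
          rw [pp_eval]
          have : hh (aa lam m) m x = 0 := by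
            rcases hTS x hx with h1 | h1
            · exact hS m x h1
            · rw [← hh_symm]
              exact hS m _ h1
          rw [this, mul_zero]
        · rw [Finset.card_image_of_injective _ ZMod.injective_stdAddChar]
          have := pp_natDegree (aa lam m) m
          omega
      have h2 := pp_coeff (aa lam m) m j
      rw [hp, coeff_zero] at h2
      exact (neg_eq_zero.1 h2.symm)
  funext v j
  have hF : ZMod.dft (fun v : ZMod n => (lam v j : ℂ)) = 0 := by
    funext m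
    rw [ZMod.dft_apply]
    have := hcoef m j
    unfold aa at this
    rw [Pi.zero_apply, ← this]
    refine Finset.sum_congr rfl fun v _ => ?_
    rw [smul_eq_mul, mul_comm, mul_comm v m]
  have h0 := (LinearEquiv.map_eq_zero_iff _).1 hF
  have := congrFun h0 v
  simpa using this

end Pool.Agent.X60.KEG
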